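import Pool.Agent.Run7.h748.Codes.Local

/-!
# Codes with local structure: the asymptotic inequality
-/

set_option autoImplicit false

open Filter Finset

namespace Run7.h748.Codes.LocalFinal

/-- `A(n,d)`: the largest size of a binary code of length `n` with minimum distance at least `d`. -/
noncomputable def A (n d : ℕ) : ℕ :=
  sSup {m | ∃ C : Finset (Fin n → Bool),
    (∀ x ∈ C, ∀ y ∈ C, x ≠ y → d ≤ hammingDist x y) ∧ C.card = m}

/-- The asymptotic rate `R(δ) = limsup (1/n) log₂ A(n, ⌈δ n⌉)`. -/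
noncomputable def R (δ : ℝ) : ℝ :=
  limsup (fun n : ℕ => Real.logb 2 (A n ⌈δ * n⌉₊) / n) atTop

/-- The binary entropy function `H₂(x) = - x log₂ x - (1 - x) log₂ (1 - x)`. -/
noncomputable def H (x : ℝ) : ℝ := -x * Real.logb 2 x - (1 - x) * Real.logb 2 (1 - x)

/-- The `k`-local closure of `C`: the words which agree with some word of `C` on every set of at most
`k` coordinates. -/
def localClosure {n : ℕ} (k : ℕ) (C : Finset (Fin n → Bool)) : Set (Fin n → Bool) :=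
  {x | ∀ S : Finset (Fin n), S.card ≤ k → ∃ y ∈ C, ∀ i ∈ S, y i = x i}

/-- The subcube of the words which agree with `b` outside `T`; its dimension is `|T|`. -/
def subcube {n : ℕ} (T : Finset (Fin n)) (b : Fin n → Bool) : Set (Fin n → Bool) :=
  {x | ∀ i ∉ T, x i = b i}

/-- `A_{k,ε}(n,d)`: the largest size of a binary code of length `n` with minimum distance at least
`d` whose `k`-local closure contains no subcube of dimension at least `(1 - ε) n`. -/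
noncomputable def Aloc (k : ℕ) (ε : ℝ) (n d : ℕ) : ℕ :=
  sSup {m | ∃ C : Finset (Fin n → Bool),
    (∀ x ∈ C, ∀ y ∈ C, x ≠ y → d ≤ hammingDist x y) ∧
    (∀ (T : Finset (Fin n)) (b : Fin n → Bool), subcube T b ⊆ localClosure k C →
      (T.card : ℝ) < (1 - ε) * n) ∧ C.card = m}

/-- The asymptotic rate of these codes, `R_{k,ε}(δ) = limsup (1/n) log₂ A_{k,ε}(n, ⌈δ n⌉)`. -/
noncomputable def Rloc (k : ℕ) (ε δ : ℝ) : ℝ :=
  limsup (fun n : ℕ => Real.logb 2 (Aloc k ε n ⌈δ * n⌉₊) / n) atTop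

lemma Aloc_bdd (k : ℕ) (ε : ℝ) (n d : ℕ) : BddAbove {m | ∃ C : Finset (Fin n → Bool),
    (∀ x ∈ C, ∀ y ∈ C, x ≠ y → d ≤ hammingDist x y) ∧
    (∀ (T : Finset (Fin n)) (b : Fin n → Bool), subcube T b ⊆ localClosure k C →
      (T.card : ℝ) < (1 - ε) * n) ∧ C.card = m} := by
  refine ⟨2 ^ n, ?_⟩
  rintro m ⟨C, -, -, rfl⟩
  refine (Finset.card_le_univ C).trans ?_
  simp

lemma singleton_mem {k : ℕ} (hk : 1 ≤ k) {ε : ℝ} (hε : ε < 1) {n : ℕ} (hn : 1 ≤ n) (d : ℕ) :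
    1 ∈ {m | ∃ C : Finset (Fin n → Bool),
    (∀ x ∈ C, ∀ y ∈ C, x ≠ y → d ≤ hammingDist x y) ∧
    (∀ (T : Finset (Fin n)) (b : Fin n → Bool), subcube T b ⊆ localClosure k C →
      (T.card : ℝ) < (1 - ε) * n) ∧ C.card = m} := by
  classical
  refine ⟨{fun _ => false}, ?_, ?_, Finset.card_singleton _⟩
  · intro x hx y hy hxy
    rw [Finset.mem_singleton] at hx hy
    exact absurd (hx.trans hy.symm) hxy
  · intro T b hT
    have hT0 : T = ∅ := by
      by_contra hne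
      obtain ⟨j, hj⟩ := Finset.nonempty_iff_ne_empty.2 hne
      have h1 : (fun i => if i = j then true else b i) ∈ subcube T b := by
        intro i hi
        have : i ≠ j := by rintro rfl; exact hi hj
        simp [this]
      obtain ⟨y, hy, hyS⟩ := hT h1 {j} (by simpa using hk)
      rw [Finset.mem_singleton] at hy
      have := hyS j (by simp)
      rw [hy] at this
      simp at this
    rw [hT0]
    have hn' : (1 : ℝ) ≤ n := by exact_mod_cast hn
    simp only [Finset.card_empty, Nat.cast_zero]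
    nlinarith

/-- The explicit inequality for every length `n`. -/
theorem finite_inequality {k : ℕ} (hk : 1 ≤ k) {ε δ : ℝ} (hε : 0 < ε) (hε1 : ε < 1) (h0 : 0 < δ)
    (h1 : δ < 1 / 2) {n : ℕ} (hn : 1 ≤ n) :
    1 ≤ Aloc k ε n ⌈δ * n⌉₊ ∧
    1 / 2 * Real.exp (ε / 2 * (((1 - 2 * δ) / 2) ^ (2 * k) / (32 * k)) ^ k * n) *
      min (Aloc k ε n ⌈δ * n⌉₊ : ℝ) ((2 : ℝ) ^ ((1 - H δ) * n)) ≤ A n ⌈δ * n⌉₊ := by
  have hmem := Nat.sSup_mem ⟨1, singleton_mem hk hε1 hn ⌈δ * n⌉₊⟩ (Aloc_bdd k ε n ⌈δ * n⌉₊)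
  have hone : 1 ≤ Aloc k ε n ⌈δ * n⌉₊ :=
    le_csSup (Aloc_bdd k ε n ⌈δ * n⌉₊) (singleton_mem hk hε1 hn ⌈δ * n⌉₊)
  refine ⟨hone, ?_⟩
  obtain ⟨C, hC, hsub, hcard⟩ := hmem
  have hcard' : C.card = Aloc k ε n ⌈δ * n⌉₊ := hcard
  have hnR : (1 : ℝ) ≤ n := by exact_mod_cast hn
  have hd1 : 1 ≤ ⌈δ * n⌉₊ := Nat.one_le_ceil_iff.2 (by positivity)
  have hd : ∀ j : ℕ, j < ⌈δ * n⌉₊ → (j : ℝ) ≤ δ * n := fun j hj => (Nat.lt_ceil.1 hj).le
  have hne : C.Nonempty := by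
    rw [← Finset.card_pos, hcard']
    omega
  have key := Run7.h748.Codes.local_structure h0 h1 hd1 hd hk hε C hne hC (by
    intro T b hT
    by_contra hcon
    push Not at hcon
    have := hsub T b (fun x hx => hcon x hx)
    linarith)
  rw [← pow_mul, mul_comm k 2, hcard'] at key
  exact key

lemma logb_lower {k : ℕ} (hk : 1 ≤ k) {ε δ : ℝ} (hε : 0 < ε) (hε1 : ε < 1) (h0 : 0 < δ)
    (h1 : δ < 1 / 2) {n : ℕ} (hn : 1 ≤ n) :
    min (Real.logb 2 (Aloc k ε n ⌈δ * n⌉₊) / n) (1 - H δ) +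
      ε / 2 * (((1 - 2 * δ) / 2) ^ (2 * k) / (32 * k)) ^ k - 1 / n ≤
      Real.logb 2 (A n ⌈δ * n⌉₊) / n := by
  obtain ⟨hone, hfin⟩ := finite_inequality hk hε hε1 h0 h1 hn
  set c : ℝ := ε / 2 * (((1 - 2 * δ) / 2) ^ (2 * k) / (32 * k)) ^ k with hc
  have hc0 : 0 ≤ c := by
    have : 0 ≤ (1 - 2 * δ) / 2 := by linarith
    positivity
  have hnR : (0 : ℝ) < n := by exact_mod_cast hn
  have hL0 : (0 : ℝ) < Aloc k ε n ⌈δ * n⌉₊ := by exact_mod_cast hone
  have hG0 : (0 : ℝ) < (2 : ℝ) ^ ((1 - H δ) * n) := by positivity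
  have hmin0 : (0 : ℝ) < min (Aloc k ε n ⌈δ * n⌉₊ : ℝ) ((2 : ℝ) ^ ((1 - H δ) * n)) :=
    lt_min hL0 hG0
  have hlog2 : 0 < Real.log 2 := Real.log_pos (by norm_num)
  have hlog2' : Real.log 2 ≤ 1 := by linarith [Real.log_two_lt_d9]
  have h2 : Real.logb 2 (1 / 2 * Real.exp (c * n) *
      min (Aloc k ε n ⌈δ * n⌉₊ : ℝ) ((2 : ℝ) ^ ((1 - H δ) * n))) ≤
      Real.logb 2 (A n ⌈δ * n⌉₊) := by
    apply Real.logb_le_logb_of_le (by norm_num) _ hfin
    positivity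
  rw [Real.logb_mul (by positivity) hmin0.ne', Real.logb_mul (by norm_num) (Real.exp_pos _).ne'] at h2
  have e1 : Real.logb 2 (1 / 2) = -1 := by
    rw [one_div, Real.logb_inv, Real.logb_self_eq_one (by norm_num)]
  have e2 : c * n ≤ Real.logb 2 (Real.exp (c * n)) := by
    rw [Real.logb, Real.log_exp, le_div_iff₀ hlog2]
    have : 0 ≤ c * n := by positivity
    nlinarith
  have e3 : min (Real.logb 2 (Aloc k ε n ⌈δ * n⌉₊)) ((1 - H δ) * n) ≤
      Real.logb 2 (min (Aloc k ε n ⌈δ * n⌉₊ : ℝ) ((2 : ℝ) ^ ((1 - H δ) * n))) := by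
    rcases le_total (Aloc k ε n ⌈δ * n⌉₊ : ℝ) ((2 : ℝ) ^ ((1 - H δ) * n)) with h | h
    · rw [min_eq_left h]
      exact min_le_left _ _
    · rw [min_eq_right h, Real.logb_rpow (by norm_num) (by norm_num)]
      exact min_le_right _ _
  rw [le_div_iff₀ hnR]
  have e4 : (min (Real.logb 2 (Aloc k ε n ⌈δ * n⌉₊) / n) (1 - H δ) + c - 1 / n) * n =
      min (Real.logb 2 (Aloc k ε n ⌈δ * n⌉₊)) ((1 - H δ) * n) + c * n - 1 := by
    have e5 : min (Real.logb 2 (Aloc k ε n ⌈δ * n⌉₊) / n) (1 - H δ) * n =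
        min (Real.logb 2 (Aloc k ε n ⌈δ * n⌉₊)) ((1 - H δ) * n) := by
      rw [min_mul_of_nonneg _ _ hnR.le, div_mul_cancel₀ _ hnR.ne']
    have e6 : 1 / (n : ℝ) * n = 1 := by field_simp
    linear_combination e5 - e6
  rw [e4]
  linarith

/-- For `k ≥ 1`, `0 < ε < 1` and `0 < δ < 1/2`, with `R_{k,ε}(δ)` the asymptotic rate of the binary
codes of relative distance `δ` whose `k`-local closure contains no subcube of dimension at least
`(1 - ε) n`: `R(δ) ≥ min (R_{k,ε}(δ), 1 - H(δ)) + ε/2 * (((1 - 2 δ) / 2)^(2 k) / (32 k))^k`. -/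
theorem local_rate : ∀ k : ℕ, 1 ≤ k → ∀ ε δ : ℝ, 0 < ε → ε < 1 → 0 < δ → δ < 1 / 2 →
    min (Rloc k ε δ) (1 - H δ) + ε / 2 * (((1 - 2 * δ) / 2) ^ (2 * k) / (32 * k)) ^ k ≤ R δ := by
  intro k hk ε δ hε hε1 h0 h1
  set c : ℝ := ε / 2 * (((1 - 2 * δ) / 2) ^ (2 * k) / (32 * k)) ^ k with hc
  set a : ℕ → ℝ := fun n : ℕ => Real.logb 2 (A n ⌈δ * n⌉₊) / n with ha
  set b : ℕ → ℝ := fun n : ℕ => Real.logb 2 (Aloc k ε n ⌈δ * n⌉₊) / n with hb
  have hbn : ∀ n, 0 ≤ b n := by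
    intro n
    rcases Nat.eq_zero_or_pos n with rfl | hn
    · simp [hb]
    · have hone := (finite_inequality hk hε hε1 h0 h1 hn).1
      have : (1 : ℝ) ≤ Aloc k ε n ⌈δ * n⌉₊ := by exact_mod_cast hone
      exact div_nonneg (Real.logb_nonneg (by norm_num) this) (Nat.cast_nonneg n)
  have han : ∀ n, a n ≤ 1 := by
    intro n
    rcases Nat.eq_zero_or_pos n with rfl | hn
    · simp [ha]
    · have hle : A n ⌈δ * n⌉₊ ≤ 2 ^ n := by
        apply csSup_le'
        rintro m ⟨C, -, rfl⟩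
        refine (Finset.card_le_univ C).trans ?_
        simp
      have hle' : (A n ⌈δ * n⌉₊ : ℝ) ≤ 2 ^ n := by exact_mod_cast hle
      have hnR : (0 : ℝ) < n := by exact_mod_cast hn
      show Real.logb 2 (A n ⌈δ * n⌉₊) / n ≤ 1
      rw [div_le_one hnR]
      rcases Nat.eq_zero_or_pos (A n ⌈δ * n⌉₊) with h | h
      · rw [h]
        simp
      · have hA0 : (0 : ℝ) < A n ⌈δ * n⌉₊ := by exact_mod_cast h
        rw [Real.logb_le_iff_le_rpow (by norm_num) hA0, Real.rpow_natCast]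
        exact hle'
  have hRloc : Rloc k ε δ = limsup b atTop := rfl
  have hR : R δ = limsup a atTop := rfl
  rw [hRloc, hR]
  by_contra hcon
  rw [not_le] at hcon
  set γ : ℝ := (min (limsup b atTop) (1 - H δ) + c - limsup a atTop) / 3 with hγ
  have hγ0 : 0 < γ := by rw [hγ]; linarith
  have hbb : IsCoboundedUnder (· ≤ ·) atTop b :=
    isCoboundedUnder_le_of_le atTop (x := 0) hbn
  have hfreq : ∃ᶠ n in atTop, limsup b atTop - γ < b n :=
    frequently_lt_of_lt_limsup hbb (by linarith)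
  have hlarge : ∀ᶠ n : ℕ in atTop, 1 ≤ n ∧ 1 / (n : ℝ) ≤ γ := by
    filter_upwards [eventually_ge_atTop (max 1 ⌈1 / γ⌉₊)] with n hn
    have hn1 : 1 ≤ n := le_trans (le_max_left _ _) hn
    have hn2 : ⌈1 / γ⌉₊ ≤ n := le_trans (le_max_right _ _) hn
    refine ⟨hn1, ?_⟩
    have hnR : (0 : ℝ) < n := by exact_mod_cast hn1
    have h3 : 1 / γ ≤ n := (Nat.le_ceil _).trans (by exact_mod_cast hn2)
    rw [div_le_iff₀ hnR]
    rw [div_le_iff₀ hγ0] at h3
    linarith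
  have hfa : ∃ᶠ n in atTop, limsup a atTop + γ ≤ a n := by
    refine (hfreq.and_eventually hlarge).mono ?_
    rintro n ⟨hbn', hn1, hn2⟩
    have h4 := logb_lower hk hε hε1 h0 h1 hn1
    have h5 : min (limsup b atTop) (1 - H δ) - γ ≤ min (b n) (1 - H δ) := by
      refine le_min ?_ ?_
      · have := min_le_left (limsup b atTop) (1 - H δ)
        linarith
      · have := min_le_right (limsup b atTop) (1 - H δ)
        linarith
    have h6 : min (b n) (1 - H δ) + c - 1 / n ≤ a n := h4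
    linarith
  have hab : IsBoundedUnder (· ≤ ·) atTop a := isBoundedUnder_of ⟨1, han⟩
  have h7 := le_limsup_of_frequently_le hfa hab
  linarith

end Run7.h748.Codes.LocalFinal
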