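import Pool.Agent.Results.MP_0430e4_lc.ConstantWeightCriterion

/-!
# Binary codes and statistics of disjoint blocks

If all words `x` of a code `I` with minimum distance `d = δ n` look atypical on many disjoint blocks
of coordinates, even after the binary symmetric channel with crossover probability `δ`, then there
are codes which are exponentially larger than `I` or than the bound of Gilbert and Varshamov.
-/

set_option autoImplicit false

open Finset

namespace Run7.h748.Codes

open Pool.Agent.Results.MP_0430e4_lc.ConstantWeightCriterion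

variable {n : ℕ}

/-- product weights -/
noncomputable def wt (p : ℝ) (e : Fin n → Bool) : ℝ := ∏ i, (if e i = true then p else 1 - p)

/-- expectation with respect to the product weights -/
noncomputable def Ex (p : ℝ) (F : (Fin n → Bool) → ℝ) : ℝ := ∑ e, wt p e * F e

/-- `F` depends only on the coordinates in `S` -/
def Dep (S : Finset (Fin n)) (F : (Fin n → Bool) → ℝ) : Prop :=
  ∀ v w : Fin n → Bool, (∀ i ∈ S, v i = w i) → F v = F w

lemma wt_nonneg {p : ℝ} (h0 : 0 ≤ p) (h1 : p ≤ 1) (e : Fin n → Bool) : 0 ≤ wt p e := by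
  unfold wt
  apply Finset.prod_nonneg
  intro i _
  split_ifs <;> linarith

lemma Ex_one (p : ℝ) : Ex p (fun _ : Fin n → Bool => 1) = 1 := by
  unfold Ex wt
  simp only [mul_one]
  rw [sum_prod (n := n) (fun _ b => if b = true then p else 1 - p)]
  simp

lemma Ex_mono {p : ℝ} (h0 : 0 ≤ p) (h1 : p ≤ 1) {F G : (Fin n → Bool) → ℝ}
    (h : ∀ e, F e ≤ G e) : Ex p F ≤ Ex p G := by
  unfold Ex
  exact Finset.sum_le_sum fun e _ => mul_le_mul_of_nonneg_left (h e) (wt_nonneg h0 h1 e)

lemma Ex_nonneg {p : ℝ} (h0 : 0 ≤ p) (h1 : p ≤ 1) {F : (Fin n → Bool) → ℝ}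
    (h : ∀ e, 0 ≤ F e) : 0 ≤ Ex p F := by
  unfold Ex
  exact Finset.sum_nonneg fun e _ => mul_nonneg (wt_nonneg h0 h1 e) (h e)

lemma Ex_add (p : ℝ) (F G : (Fin n → Bool) → ℝ) :
    Ex p (fun e => F e + G e) = Ex p F + Ex p G := by
  unfold Ex
  rw [← Finset.sum_add_distrib]
  exact Finset.sum_congr rfl fun e _ => by ring

lemma Ex_smul (p a : ℝ) (F : (Fin n → Bool) → ℝ) : Ex p (fun e => a * F e) = a * Ex p F := by
  unfold Ex
  rw [Finset.mul_sum]
  exact Finset.sum_congr rfl fun e _ => by ring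

/-- the word which is `v` on `S` and `w` elsewhere -/
def mix (S : Finset (Fin n)) (v w : Fin n → Bool) : Fin n → Bool := fun i => if i ∈ S then v i else w i

/-- exchange of the coordinates outside `S` -/
def mixEquiv (S : Finset (Fin n)) :
    ((Fin n → Bool) × (Fin n → Bool)) ≃ ((Fin n → Bool) × (Fin n → Bool)) where
  toFun q := (mix S q.1 q.2, mix S q.2 q.1)
  invFun q := (mix S q.1 q.2, mix S q.2 q.1)
  left_inv q := by
    obtain ⟨v, w⟩ := q
    ext i <;> by_cases h : i ∈ S <;> simp [mix, h]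
  right_inv q := by
    obtain ⟨v, w⟩ := q
    ext i <;> by_cases h : i ∈ S <;> simp [mix, h]

lemma wt_mix (p : ℝ) (S : Finset (Fin n)) (v w : Fin n → Bool) :
    wt p (mix S v w) * wt p (mix S w v) = wt p v * wt p w := by
  unfold wt
  rw [← Finset.prod_mul_distrib, ← Finset.prod_mul_distrib]
  apply Finset.prod_congr rfl
  intro i _
  by_cases h : i ∈ S
  · simp [mix, h]
  · simp only [mix, h, if_false]
    ring

lemma Ex_mul_of_disjoint (p : ℝ) {S T : Finset (Fin n)} (hST : Disjoint S T)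
    {f g : (Fin n → Bool) → ℝ} (hf : Dep S f) (hg : Dep T g) :
    Ex p (fun e => f e * g e) = Ex p f * Ex p g := by
  have h1 : Ex p (fun e => f e * g e) = ∑ q : (Fin n → Bool) × (Fin n → Bool),
      wt p q.1 * wt p q.2 * (f q.1 * g q.1) := by
    rw [Fintype.sum_prod_type]
    have h2 : Ex p (fun e => f e * g e) = Ex p (fun e => f e * g e) * Ex p (fun _ : Fin n → Bool => 1) := by
      rw [Ex_one, mul_one]
    rw [h2]
    unfold Ex
    rw [Finset.sum_mul_sum]
    apply Finset.sum_congr rfl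
    intro v _
    apply Finset.sum_congr rfl
    intro w _
    ring
  rw [h1, ← (mixEquiv S).sum_comp]
  have h3 : Ex p f * Ex p g = ∑ q : (Fin n → Bool) × (Fin n → Bool),
      wt p q.1 * wt p q.2 * (f q.1 * g q.2) := by
    rw [Fintype.sum_prod_type]
    unfold Ex
    rw [Finset.sum_mul_sum]
    apply Finset.sum_congr rfl
    intro v _
    apply Finset.sum_congr rfl
    intro w _
    ring
  rw [h3]
  apply Finset.sum_congr rfl
  rintro ⟨v, w⟩ _
  show wt p (mix S v w) * wt p (mix S w v) * (f (mix S v w) * g (mix S v w)) = _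
  rw [wt_mix]
  have e1 : f (mix S v w) = f v := hf _ _ fun i hi => by simp [mix, hi]
  have e2 : g (mix S v w) = g w := hg _ _ fun i hi => by
    have : i ∉ S := fun h => (Finset.disjoint_left.1 hST) h hi
    simp [mix, this]
  rw [e1, e2]

lemma Ex_prod_of_disjoint (p : ℝ) (F : Finset (Finset (Fin n)))
    (hF : (F : Set (Finset (Fin n))).PairwiseDisjoint id) (f : Finset (Fin n) → (Fin n → Bool) → ℝ)
    (hf : ∀ S ∈ F, Dep S (f S)) :
    Ex p (fun e => ∏ S ∈ F, f S e) = ∏ S ∈ F, Ex p (f S) := by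
  classical
  induction F using Finset.induction_on with
  | empty => simp [Ex_one]
  | insert S F hS ih =>
    simp only [Finset.prod_insert hS]
    have hF' : (F : Set (Finset (Fin n))).PairwiseDisjoint id :=
      hF.subset (by simp)
    have hdis : Disjoint S (F.biUnion id) := by
      rw [Finset.disjoint_biUnion_right]
      intro T hT
      exact hF (by simp) (by simp [hT]) (by rintro rfl; exact hS hT)
    rw [Ex_mul_of_disjoint p hdis (hf S (by simp))
      (g := fun e => ∏ T ∈ F, f T e), ih hF' fun T hT => hf T (by simp [hT])]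
    intro v w hvw
    apply Finset.prod_congr rfl
    intro T hT
    exact hf T (by simp [hT]) v w fun i hi => hvw i (Finset.mem_biUnion.2 ⟨T, hT, hi⟩)

lemma exp_quad {y : ℝ} (h : |y| ≤ 1) : Real.exp y ≤ 1 + y + y ^ 2 := by
  have h := Real.abs_exp_sub_one_sub_id_le (x := y) h
  have := (abs_le.1 h).2
  linarith

/-- the exponential moment of a sum of functions of disjoint blocks -/
lemma mgf_blocks {p : ℝ} (hp0 : 0 ≤ p) (hp1 : p ≤ 1) (F : Finset (Finset (Fin n)))
    (hF : (F : Set (Finset (Fin n))).PairwiseDisjoint id) (f : Finset (Fin n) → (Fin n → Bool) → ℝ)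
    (hf : ∀ S ∈ F, Dep S (f S)) (habs : ∀ S ∈ F, ∀ v, |f S v| ≤ 1) {s : ℝ} (hs0 : |s| ≤ 1) :
    Ex p (fun e => Real.exp (s * ∑ S ∈ F, f S e)) ≤
      Real.exp (s * ∑ S ∈ F, Ex p (f S) + s ^ 2 * F.card) := by
  have h1 : Ex p (fun e => Real.exp (s * ∑ S ∈ F, f S e)) =
      ∏ S ∈ F, Ex p (fun e => Real.exp (s * f S e)) := by
    rw [← Ex_prod_of_disjoint p F hF (fun S e => Real.exp (s * f S e))]
    · congr 1
      funext e
      rw [Finset.mul_sum, Real.exp_sum]
    · intro S hS v w hvw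
      show Real.exp (s * f S v) = Real.exp (s * f S w)
      rw [hf S hS v w hvw]
  rw [h1]
  have h2 : ∀ S ∈ F, Ex p (fun e => Real.exp (s * f S e)) ≤
      Real.exp (s * Ex p (f S) + s ^ 2) := by
    intro S hS
    have h3 : Ex p (fun e => Real.exp (s * f S e)) ≤ Ex p (fun e => (1 + s ^ 2) * 1 + s * f S e) := by
      apply Ex_mono hp0 hp1
      intro e
      have ha := habs S hS e
      have h4 : |s * f S e| ≤ 1 := by
        rw [abs_mul]
        calc |s| * |f S e| ≤ 1 * 1 := mul_le_mul hs0 ha (abs_nonneg _) zero_le_one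
          _ = 1 := by norm_num
      have h5 := exp_quad h4
      have h6 : (s * f S e) ^ 2 ≤ s ^ 2 := by
        rw [mul_pow]
        have : f S e ^ 2 ≤ 1 := by
          rw [← sq_abs]
          nlinarith [abs_nonneg (f S e)]
        nlinarith [sq_nonneg s]
      linarith
    rw [Ex_add p (fun _ => (1 + s ^ 2) * 1) (fun e => s * f S e), Ex_smul, Ex_smul, Ex_one] at h3
    have h7 := Real.add_one_le_exp (s * Ex p (f S) + s ^ 2)
    linarith
  calc ∏ S ∈ F, Ex p (fun e => Real.exp (s * f S e))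
      ≤ ∏ S ∈ F, Real.exp (s * Ex p (f S) + s ^ 2) := by
        apply Finset.prod_le_prod
        · intro S _
          exact Ex_nonneg hp0 hp1 fun e => (Real.exp_pos _).le
        · exact h2
    _ = Real.exp (s * ∑ S ∈ F, Ex p (f S) + s ^ 2 * F.card) := by
        rw [← Real.exp_sum, Finset.sum_add_distrib, ← Finset.mul_sum, Finset.sum_const,
          nsmul_eq_mul]
        congr 1
        ring

lemma wt_eq (p : ℝ) (e : Fin n → Bool) :
    wt p e = p ^ weight e * (1 - p) ^ (n - weight e) := by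
  unfold wt
  rw [prod_ite_eq (fun i => e i = true)]
  rfl

lemma wt_half (e : Fin n → Bool) : wt (1 / 2) e = 1 / 2 ^ n := by
  rw [wt_eq]
  have h := weight_le e
  have : (1 : ℝ) - 1 / 2 = 1 / 2 := by norm_num
  rw [this, ← pow_add, Nat.add_sub_cancel' h]
  simp

/-- the words of a ball around `x` on which `G > L`, `G` a sum over disjoint blocks -/
lemma ball_count {δ : ℝ} (h0 : 0 < δ) (h1 : δ ≤ 1 / 2) {d : ℕ} (hd : ∀ k : ℕ, k < d → (k : ℝ) ≤ δ * n)
    (x : Fin n → Bool) (F : Finset (Finset (Fin n)))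
    (hF : (F : Set (Finset (Fin n))).PairwiseDisjoint id) (f : Finset (Fin n) → (Fin n → Bool) → ℝ)
    (hf : ∀ S ∈ F, Dep S (f S)) (habs : ∀ S ∈ F, ∀ v, |f S v| ≤ 1) {s L : ℝ} (hs0 : 0 ≤ s)
    (hs1 : s ≤ 1) :
    ((univ.filter fun v : Fin n → Bool => hammingDist x v < d ∧ L < ∑ S ∈ F, f S v).card : ℝ) ≤
      (2 : ℝ) ^ (H δ * n) * Real.exp (s * (∑ S ∈ F, Ex δ (fun e => f S (tr x e)) - L) +
        s ^ 2 * F.card) := by
  classical
  have hcard : (univ.filter fun v : Fin n → Bool => hammingDist x v < d ∧ L < ∑ S ∈ F, f S v).card =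
      (univ.filter fun e : Fin n → Bool => weight e < d ∧ L < ∑ S ∈ F, f S (tr x e)).card := by
    refine Finset.card_bij (fun v _ => tr x v) ?_ ?_ ?_
    · intro v hv
      simp only [Finset.mem_filter, Finset.mem_univ, true_and] at hv ⊢
      rw [tr_tr, weight_tr]
      exact hv
    · intro v _ w _ h
      exact tr_inj x h
    · intro e he
      refine ⟨tr x e, ?_, tr_tr x e⟩
      simp only [Finset.mem_filter, Finset.mem_univ, true_and] at he ⊢
      refine ⟨?_, he.2⟩
      rw [← weight_tr, tr_tr]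
      exact he.1
  rw [hcard]
  have hdep : ∀ S ∈ F, Dep S (fun e => f S (tr x e)) := by
    intro S hS v w hvw
    apply hf S hS
    intro i hi
    simp [tr, hvw i hi]
  have hmgf := mgf_blocks (p := δ) h0.le (by linarith) F hF (fun S e => f S (tr x e)) hdep
    (fun S hS v => habs S hS _) (s := s) (by rw [abs_of_nonneg hs0]; exact hs1)
  have h2 : ((univ.filter fun e : Fin n → Bool => weight e < d ∧
      L < ∑ S ∈ F, f S (tr x e)).card : ℝ) * ((2 : ℝ) ^ (-(H δ * n)) * Real.exp (s * L)) ≤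
      Ex δ (fun e => Real.exp (s * ∑ S ∈ F, f S (tr x e))) := by
    rw [← nsmul_eq_mul, ← Finset.sum_const]
    unfold Ex
    calc ∑ _e ∈ univ.filter (fun e : Fin n → Bool => weight e < d ∧
          L < ∑ S ∈ F, f S (tr x e)), ((2 : ℝ) ^ (-(H δ * n)) * Real.exp (s * L))
        ≤ ∑ e ∈ univ.filter (fun e : Fin n → Bool => weight e < d ∧
          L < ∑ S ∈ F, f S (tr x e)), wt δ e * Real.exp (s * ∑ S ∈ F, f S (tr x e)) := by
          apply Finset.sum_le_sum
          intro e he
          rw [Finset.mem_filter] at he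
          apply mul_le_mul
          · rw [wt_eq]
            exact pow_lower h0 h1 (weight_le e) (hd _ he.2.1)
          · apply Real.exp_le_exp.2
            exact mul_le_mul_of_nonneg_left he.2.2.le hs0
          · exact (Real.exp_pos _).le
          · exact wt_nonneg h0.le (by linarith) e
      _ ≤ _ := by
          apply Finset.sum_le_sum_of_subset_of_nonneg (Finset.subset_univ _)
          intro e _ _
          exact mul_nonneg (wt_nonneg h0.le (by linarith) e) (Real.exp_pos _).le
  have h3 := h2.trans hmgf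
  have hpos : 0 < (2 : ℝ) ^ (-(H δ * n)) * Real.exp (s * L) := by positivity
  rw [← le_div_iff₀ hpos] at h3
  refine h3.trans (le_of_eq ?_)
  rw [div_eq_mul_inv, mul_inv, Real.rpow_neg (by norm_num), inv_inv, ← Real.exp_neg]
  have : Real.exp (s * (∑ S ∈ F, Ex δ (fun e => f S (tr x e)) - L) + s ^ 2 * F.card) =
      Real.exp (s * ∑ S ∈ F, Ex δ (fun e => f S (tr x e)) + s ^ 2 * F.card) *
        Real.exp (-(s * L)) := by
    rw [← Real.exp_add]
    congr 1
    ring
  rw [this]
  ring

/-- the words on which `G ≤ L`, `G` a sum over disjoint blocks -/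
lemma cube_count (F : Finset (Finset (Fin n)))
    (hF : (F : Set (Finset (Fin n))).PairwiseDisjoint id) (f : Finset (Fin n) → (Fin n → Bool) → ℝ)
    (hf : ∀ S ∈ F, Dep S (f S)) (habs : ∀ S ∈ F, ∀ v, |f S v| ≤ 1) {s L : ℝ} (hs0 : 0 ≤ s)
    (hs1 : s ≤ 1) :
    ((univ.filter fun v : Fin n → Bool => ∑ S ∈ F, f S v ≤ L).card : ℝ) ≤
      (2 : ℝ) ^ n * Real.exp (s * (L - ∑ S ∈ F, Ex (1 / 2) (f S)) + s ^ 2 * F.card) := by
  classical
  have hmgf := mgf_blocks (p := 1 / 2) (by norm_num) (by norm_num) F hF f hf habs (s := -s)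
    (by rw [abs_neg, abs_of_nonneg hs0]; exact hs1)
  have h2 : ((univ.filter fun v : Fin n → Bool => ∑ S ∈ F, f S v ≤ L).card : ℝ) *
      (1 / 2 ^ n * Real.exp (-s * L)) ≤
      Ex (1 / 2) (fun e => Real.exp (-s * ∑ S ∈ F, f S e)) := by
    rw [← nsmul_eq_mul, ← Finset.sum_const]
    unfold Ex
    calc ∑ _v ∈ univ.filter (fun v : Fin n → Bool => ∑ S ∈ F, f S v ≤ L),
          (1 / 2 ^ n * Real.exp (-s * L))
        ≤ ∑ v ∈ univ.filter (fun v : Fin n → Bool => ∑ S ∈ F, f S v ≤ L),
          wt (1 / 2) v * Real.exp (-s * ∑ S ∈ F, f S v) := by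
          apply Finset.sum_le_sum
          intro e he
          rw [Finset.mem_filter] at he
          rw [wt_half]
          apply mul_le_mul_of_nonneg_left _ (by positivity)
          apply Real.exp_le_exp.2
          have := mul_le_mul_of_nonneg_left he.2 hs0
          linarith
      _ ≤ _ := by
          apply Finset.sum_le_sum_of_subset_of_nonneg (Finset.subset_univ _)
          intro e _ _
          exact mul_nonneg (wt_nonneg (by norm_num) (by norm_num) e) (Real.exp_pos _).le
  have h3 := h2.trans hmgf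
  have hpos : 0 < 1 / (2 : ℝ) ^ n * Real.exp (-s * L) := by positivity
  rw [← le_div_iff₀ hpos] at h3
  refine h3.trans (le_of_eq ?_)
  have e0 : ((1 : ℝ) / 2 ^ n)⁻¹ = 2 ^ n := by rw [one_div, inv_inv]
  rw [div_eq_mul_inv, mul_inv, ← Real.exp_neg, e0]
  have : Real.exp (s * (L - ∑ S ∈ F, Ex (1 / 2) (f S)) + s ^ 2 * F.card) =
      Real.exp (-s * ∑ S ∈ F, Ex (1 / 2) (f S) + (-s) ^ 2 * F.card) *
        Real.exp (-(-s * L)) := by
    rw [← Real.exp_add]
    congr 1
    ring
  rw [this]
  ring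

/-- **The inequality for atypical codes.** -/
theorem master {δ : ℝ} (h0 : 0 < δ) (h1 : δ ≤ 1 / 2) {d : ℕ} (hd1 : 1 ≤ d)
    (hd : ∀ k : ℕ, k < d → (k : ℝ) ≤ δ * n)
    (I : Finset (Fin n → Bool)) (hI : IsCode d I) (F : Finset (Finset (Fin n)))
    (hF : (F : Set (Finset (Fin n))).PairwiseDisjoint id) (f : Finset (Fin n) → (Fin n → Bool) → ℝ)
    (hf : ∀ S ∈ F, Dep S (f S)) (habs : ∀ S ∈ F, ∀ v, |f S v| ≤ 1) {η : ℝ} (hη0 : 0 ≤ η)
    (hη1 : η ≤ 4)
    (hx : ∀ x ∈ I, ∑ S ∈ F, Ex δ (fun e => f S (tr x e)) + η * F.card ≤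
      ∑ S ∈ F, Ex (1 / 2) (f S)) :
    1 / 2 * Real.exp (η ^ 2 * F.card / 16) * min (I.card : ℝ) ((2 : ℝ) ^ ((1 - H δ) * n)) ≤
      A n d := by
  classical
  set m : ℝ := (F.card : ℝ) with hm
  set L : ℝ := ∑ S ∈ F, Ex (1 / 2) (f S) - η * m / 2 with hL
  set Q : ℝ := Real.exp (-(η ^ 2 * m / 16)) with hQ
  set G : ℝ := (2 : ℝ) ^ ((1 - H δ) * n) with hG
  have hQ0 : 0 < Q := Real.exp_pos _
  have hG0 : 0 < G := by positivity
  have hm0 : 0 ≤ m := Nat.cast_nonneg _
  have hcube := cube_count F hF f hf habs (s := η / 4) (L := L) (by linarith) (by linarith)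
  have hcube' : ((univ.filter fun v : Fin n → Bool => ∑ S ∈ F, f S v ≤ L).card : ℝ) ≤
      (2 : ℝ) ^ n * Q := by
    refine hcube.trans (le_of_eq ?_)
    rw [hQ]
    congr 2
    rw [hL]
    ring
  have hball : ∀ x ∈ I, ((univ.filter fun v : Fin n → Bool => hammingDist x v < d ∧
      L < ∑ S ∈ F, f S v).card : ℝ) ≤ (2 : ℝ) ^ (H δ * n) * Q := by
    intro x hxI
    refine (ball_count h0 h1 hd x F hF f hf habs (s := η / 4) (L := L) (by linarith)
      (by linarith)).trans ?_
    apply mul_le_mul_of_nonneg_left _ (by positivity)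
    rw [hQ]
    apply Real.exp_le_exp.2
    have := hx x hxI
    rw [hL]
    have h5 : 0 ≤ η / 4 := by linarith
    nlinarith [mul_le_mul_of_nonneg_left this h5]
  have hN : ((nbhd d I).card : ℝ) ≤ (2 : ℝ) ^ n * Q + I.card * ((2 : ℝ) ^ (H δ * n) * Q) := by
    have hsub : nbhd d I ⊆ (univ.filter fun v : Fin n → Bool => ∑ S ∈ F, f S v ≤ L) ∪
        I.biUnion (fun x => univ.filter fun v : Fin n → Bool => hammingDist x v < d ∧
          L < ∑ S ∈ F, f S v) := by
      intro v hv
      rw [mem_nbhd] at hv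
      obtain ⟨x, hxI, hxv⟩ := hv
      rw [Finset.mem_union]
      by_cases hle : ∑ S ∈ F, f S v ≤ L
      · left
        simp [hle]
      · right
        rw [Finset.mem_biUnion]
        refine ⟨x, hxI, ?_⟩
        simp only [Finset.mem_filter, Finset.mem_univ, true_and]
        exact ⟨hxv, not_le.1 hle⟩
    have h2 := (Finset.card_le_card hsub).trans (Finset.card_union_le _ _)
    have h3 : ((nbhd d I).card : ℝ) ≤
        ((univ.filter fun v : Fin n → Bool => ∑ S ∈ F, f S v ≤ L).card : ℝ) +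
        ((I.biUnion (fun x => univ.filter fun v : Fin n → Bool => hammingDist x v < d ∧
          L < ∑ S ∈ F, f S v)).card : ℝ) := by exact_mod_cast h2
    refine h3.trans (add_le_add hcube' ?_)
    have h4 : (((I.biUnion (fun x => univ.filter fun v : Fin n → Bool => hammingDist x v < d ∧
          L < ∑ S ∈ F, f S v)).card : ℕ) : ℝ) ≤
          ∑ x ∈ I, ((univ.filter fun v : Fin n → Bool => hammingDist x v < d ∧
          L < ∑ S ∈ F, f S v).card : ℝ) := by
      exact_mod_cast Finset.card_biUnion_le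
    refine h4.trans ?_
    refine (Finset.sum_le_sum hball).trans ?_
    rw [Finset.sum_const, nsmul_eq_mul]
  have hrep := replacement hd1 I hI
  have hrep' : (I.card : ℝ) * 2 ^ n ≤ A n d * (nbhd d I).card := by exact_mod_cast hrep
  have hA0 : (0 : ℝ) ≤ A n d := Nat.cast_nonneg _
  have h2n : (0 : ℝ) < 2 ^ n := by positivity
  have hGV : (2 : ℝ) ^ (H δ * n) = 2 ^ n / G := by
    rw [hG, ← Real.rpow_natCast, ← Real.rpow_sub (by norm_num)]
    congr 1
    ring
  have h6 : (I.card : ℝ) ≤ A n d * Q * (1 + I.card / G) := by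
    have h7 : (I.card : ℝ) * 2 ^ n ≤ (A n d * Q * (1 + I.card / G)) * 2 ^ n := by
      refine hrep'.trans ((mul_le_mul_of_nonneg_left hN hA0).trans (le_of_eq ?_))
      rw [hGV]
      field_simp
    exact le_of_mul_le_mul_right h7 h2n
  have hexp : Real.exp (η ^ 2 * m / 16) = Q⁻¹ := by
    rw [hQ, Real.exp_neg, inv_inv]
  rw [hexp]
  have hc0 : (0 : ℝ) ≤ I.card := Nat.cast_nonneg _
  -- `min (c, G) (1 + c / G) ≤ 2 c`
  have h8 : min (I.card : ℝ) G * (1 + I.card / G) ≤ 2 * I.card := by
    have e1 : min (I.card : ℝ) G * 1 ≤ I.card := by rw [mul_one]; exact min_le_left _ _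
    have e2 : min (I.card : ℝ) G * (I.card / G) ≤ I.card := by
      calc min (I.card : ℝ) G * (I.card / G) ≤ G * (I.card / G) :=
            mul_le_mul_of_nonneg_right (min_le_right _ _) (by positivity)
        _ = I.card := by field_simp
    linarith
  have hone : 0 < 1 + (I.card : ℝ) / G := by positivity
  have h9 : min (I.card : ℝ) G * (1 + I.card / G) ≤ 2 * (A n d * Q * (1 + I.card / G)) := by
    linarith
  have h10 : min (I.card : ℝ) G ≤ 2 * (A n d * Q) := by
    have : min (I.card : ℝ) G * (1 + I.card / G) ≤ (2 * (A n d * Q)) * (1 + I.card / G) := by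
      linarith
    exact le_of_mul_le_mul_right this hone
  calc 1 / 2 * Q⁻¹ * min (I.card : ℝ) G ≤ 1 / 2 * Q⁻¹ * (2 * (A n d * Q)) :=
        mul_le_mul_of_nonneg_left h10 (by positivity)
    _ = A n d := by field_simp

end Run7.h748.Codes
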