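import Pool.Agent.Run7.h748.Codes.Core

/-!
# Binary codes with local structure
-/

set_option autoImplicit false

open Finset

namespace Run7.h748.Codes

open Pool.Agent.Results.MP_0430e4_lc.ConstantWeightCriterion

variable {n : ℕ}

/-- the product of the numbers `(ρ ± 1) / 2` over `S`; the sign is `+` where `v` agrees with `a` -/
noncomputable def pat (ρ : ℝ) (a : Fin n → Bool) (S : Finset (Fin n)) (v : Fin n → Bool) : ℝ :=
  ∏ i ∈ S, (ρ + if v i = a i then 1 else -1) / 2

lemma pat_dep (ρ : ℝ) (a : Fin n → Bool) (S : Finset (Fin n)) : Dep S (pat ρ a S) := by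
  intro v w h
  unfold pat
  exact Finset.prod_congr rfl fun i hi => by rw [h i hi]

lemma pat_abs {ρ : ℝ} (h0 : 0 ≤ ρ) (h1 : ρ ≤ 1) (a : Fin n → Bool) (S : Finset (Fin n))
    (v : Fin n → Bool) : |pat ρ a S v| ≤ 1 := by
  unfold pat
  rw [Finset.abs_prod]
  apply Finset.prod_le_one
  · intro i _
    exact abs_nonneg _
  · intro i _
    rw [abs_le]
    split_ifs <;> constructor <;> linarith

lemma Ex_prod (p : ℝ) (S : Finset (Fin n)) (φ : Fin n → Bool → ℝ) :
    Ex p (fun e => ∏ i ∈ S, φ i (e i)) = ∏ i ∈ S, (p * φ i true + (1 - p) * φ i false) := by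
  unfold Ex wt
  have h1 : ∀ e : Fin n → Bool, (∏ i, (if e i = true then p else 1 - p)) * ∏ i ∈ S, φ i (e i) =
      ∏ i, ((if e i = true then p else 1 - p) * (if i ∈ S then φ i (e i) else 1)) := by
    intro e
    rw [Finset.prod_mul_distrib]
    congr 1
    rw [Finset.prod_ite_mem, Finset.univ_inter]
  simp_rw [h1]
  rw [sum_prod (n := n) (fun i b => (if b = true then p else 1 - p) *
    (if i ∈ S then φ i b else 1))]
  rw [← Finset.prod_subset (Finset.subset_univ S)]
  · apply Finset.prod_congr rfl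
    intro i hi
    simp only [hi, if_true]
    simp
    ring
  · intro i _ hi
    simp [hi]

lemma pat_uniform (ρ : ℝ) (a : Fin n → Bool) (S : Finset (Fin n)) :
    Ex (1 / 2) (pat ρ a S) = (ρ / 2) ^ S.card := by
  have h := Ex_prod (n := n) (1 / 2) S (fun i b => (ρ + if b = a i then 1 else -1) / 2)
  have h2 : Ex (1 / 2) (pat ρ a S) =
      Ex (1 / 2) (fun e : Fin n → Bool => ∏ i ∈ S, (ρ + if e i = a i then 1 else -1) / 2) := rfl
  rw [h2, h, ← Finset.prod_const]
  apply Finset.prod_congr rfl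
  intro i _
  rcases a i with _ | _ <;> simp <;> ring

lemma pat_noise {δ : ℝ} (a : Fin n → Bool) (S : Finset (Fin n)) (x : Fin n → Bool)
    (hx : ∃ i ∈ S, x i ≠ a i) : Ex δ (fun e => pat (1 - 2 * δ) a S (tr x e)) = 0 := by
  have h := Ex_prod (n := n) δ S (fun i b => ((1 - 2 * δ) + if xor (x i) b = a i then 1 else -1) / 2)
  have h2 : Ex δ (fun e => pat (1 - 2 * δ) a S (tr x e)) =
      Ex δ (fun e : Fin n → Bool => ∏ i ∈ S,
        ((1 - 2 * δ) + if xor (x i) (e i) = a i then 1 else -1) / 2) := rfl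
  rw [h2, h]
  obtain ⟨i, hi, hne⟩ := hx
  apply Finset.prod_eq_zero hi
  rcases hxi : x i with _ | _ <;> rcases hai : a i with _ | _ <;> simp_all <;> ring

/-- **Missing patterns on many disjoint blocks.** -/
theorem missing {δ : ℝ} (h0 : 0 < δ) (h1 : δ ≤ 1 / 2) {d : ℕ} (hd1 : 1 ≤ d)
    (hd : ∀ k : ℕ, k < d → (k : ℝ) ≤ δ * n)
    (I : Finset (Fin n → Bool)) (hI : IsCode d I) (F : Finset (Finset (Fin n)))
    (hF : (F : Set (Finset (Fin n))).PairwiseDisjoint id) {K : ℕ} (hK : ∀ S ∈ F, S.card ≤ K)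
    (a : Fin n → Bool) (ha : ∀ S ∈ F, ∀ x ∈ I, ∃ i ∈ S, x i ≠ a i) :
    1 / 2 * Real.exp ((((1 - 2 * δ) / 2) ^ K) ^ 2 * F.card / 16) *
      min (I.card : ℝ) ((2 : ℝ) ^ ((1 - H δ) * n)) ≤ A n d := by
  have hρ0 : 0 ≤ 1 - 2 * δ := by linarith
  have hρ1 : 1 - 2 * δ ≤ 1 := by linarith
  have hq0 : 0 ≤ (1 - 2 * δ) / 2 := by linarith
  have hq1 : (1 - 2 * δ) / 2 ≤ 1 := by linarith
  refine master h0 h1 hd1 hd I hI F hF (fun S => pat (1 - 2 * δ) a S)
    (fun S _ => pat_dep _ a S) (fun S _ v => pat_abs hρ0 hρ1 a S v)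
    (η := ((1 - 2 * δ) / 2) ^ K) (pow_nonneg hq0 K)
    ((pow_le_one₀ hq0 hq1).trans (by norm_num)) ?_
  intro x hx
  have e1 : ∑ S ∈ F, Ex δ (fun e => pat (1 - 2 * δ) a S (tr x e)) = 0 :=
    Finset.sum_eq_zero fun S hS => pat_noise a S x (ha S hS x hx)
  rw [e1, zero_add]
  have e2 : ∑ S ∈ F, Ex (1 / 2) (pat (1 - 2 * δ) a S) = ∑ S ∈ F, ((1 - 2 * δ) / 2) ^ S.card :=
    Finset.sum_congr rfl fun S _ => pat_uniform _ a S
  rw [e2, mul_comm, ← nsmul_eq_mul, ← Finset.sum_const]
  exact Finset.sum_le_sum fun S hS => pow_le_pow_of_le_one hq0 hq1 (hK S hS)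

/-- the words which agree with some word of `C` on every set of at most `k` coordinates -/
def LC (k : ℕ) (C : Finset (Fin n → Bool)) : Set (Fin n → Bool) :=
  {x | ∀ S : Finset (Fin n), S.card ≤ k → ∃ y ∈ C, ∀ i ∈ S, y i = x i}

/-- some pattern on `S` does not occur in `C` -/
def Obs (C : Finset (Fin n → Bool)) (S : Finset (Fin n)) : Prop :=
  ∃ a : Fin n → Bool, ∀ x ∈ C, ∃ i ∈ S, x i ≠ a i

lemma assemble (C : Finset (Fin n → Bool)) (F : Finset (Finset (Fin n)))
    (hF : (F : Set (Finset (Fin n))).PairwiseDisjoint id) (hobs : ∀ S ∈ F, Obs C S) :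
    ∃ a : Fin n → Bool, ∀ S ∈ F, ∀ x ∈ C, ∃ i ∈ S, x i ≠ a i := by
  classical
  choose! p hp using hobs
  refine ⟨fun i => if h : ∃ S ∈ F, i ∈ S then p h.choose i else false, ?_⟩
  intro S hS x hx
  obtain ⟨i, hi, hne⟩ := hp S hS x hx
  refine ⟨i, hi, ?_⟩
  have h : ∃ S ∈ F, i ∈ S := ⟨S, hS, hi⟩
  have hc : h.choose = S := by
    by_contra hne'
    exact Finset.disjoint_left.1 (hF h.choose_spec.1 hS hne') h.choose_spec.2 hi
  simp only [dif_pos h]
  rw [hc]
  exact hne

/-- a largest family of disjoint obstructions -/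
lemma exists_max_family (C : Finset (Fin n → Bool)) (T : Finset (Fin n)) (j : ℕ) :
    ∃ F : Finset (Finset (Fin n)), (F : Set (Finset (Fin n))).PairwiseDisjoint id ∧
      (∀ S ∈ F, S ⊆ T ∧ S.card ≤ j ∧ Obs C S ∧ S.Nonempty) ∧
      ∀ S, S ⊆ T → S.card ≤ j → Obs C S → S.Nonempty → ∃ S' ∈ F, ¬ Disjoint S' S := by
  classical
  let P : Finset (Finset (Fin n)) → Prop := fun F =>
    (F : Set (Finset (Fin n))).PairwiseDisjoint id ∧
      (∀ S ∈ F, S ⊆ T ∧ S.card ≤ j ∧ Obs C S ∧ S.Nonempty)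
  obtain ⟨F, hF, hmax⟩ := Finset.exists_max_image (univ.filter P) (fun F => F.card)
    ⟨∅, by simp [P]⟩
  rw [Finset.mem_filter] at hF
  refine ⟨F, hF.2.1, hF.2.2, ?_⟩
  intro S hST hSj hobs hne
  by_contra hcon
  push Not at hcon
  have hnot : S ∉ F := by
    intro hS
    have := hcon S hS
    rw [disjoint_self] at this
    exact hne.ne_empty this
  have hP : P (insert S F) := by
    refine ⟨?_, ?_⟩
    · rw [Finset.coe_insert]
      refine hF.2.1.insert ?_
      intro S' hS' _
      exact (hcon S' hS').symm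
    · intro S' hS'
      rw [Finset.mem_insert] at hS'
      rcases hS' with rfl | hS'
      · exact ⟨hST, hSj, hobs, hne⟩
      · exact hF.2.2 S' hS'
  have := hmax (insert S F) (by simp [hP])
  rw [Finset.card_insert_of_notMem hnot] at this
  omega

/-- the most popular values on `U` -/
lemma popular (C : Finset (Fin n → Bool)) (U : Finset (Fin n)) :
    ∃ C' ⊆ C, (C.card : ℝ) ≤ 2 ^ U.card * C'.card ∧
      ∀ x ∈ C', ∀ y ∈ C', ∀ i ∈ U, x i = y i := by
  classical
  let g : (Fin n → Bool) → (U → Bool) := fun x i => x i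
  have hb : (univ : Finset (U → Bool)).card • ((C.card : ℝ) / 2 ^ U.card) ≤ C.card := by
    rw [Finset.card_univ, Fintype.card_fun, Fintype.card_bool, Fintype.card_coe, nsmul_eq_mul]
    push_cast
    rw [mul_div_cancel₀]
    positivity
  obtain ⟨y, -, hy⟩ := Finset.exists_le_card_fiber_of_nsmul_le_card_of_maps_to
    (s := C) (t := univ) (f := g) (fun _ _ => Finset.mem_univ _) Finset.univ_nonempty hb
  refine ⟨C.filter fun x => g x = y, Finset.filter_subset _ _, ?_, ?_⟩
  · rw [div_le_iff₀ (by positivity)] at hy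
    linarith
  · intro x hx z hz i hi
    rw [Finset.mem_filter] at hx hz
    have : g x ⟨i, hi⟩ = g z ⟨i, hi⟩ := by rw [hx.2, hz.2]
    exact this

lemma step_const {κ : ℝ} {K : ℕ} (hK : 1 ≤ K) (hκ0 : 0 < κ) (hκ1 : κ ≤ 1) :
    κ ^ 2 / (32 * K) * (Real.log 2 * K + κ ^ 2 / 32) ≤ κ ^ 2 / 32 := by
  have hKR : (1 : ℝ) ≤ K := by exact_mod_cast hK
  have hlog : Real.log 2 ≤ 0.7 := by linarith [Real.log_two_lt_d9]
  have hκ2 : κ ^ 2 ≤ 1 := by nlinarith
  have hκ3 : 0 ≤ κ ^ 2 := sq_nonneg κ
  have h1 : Real.log 2 * K + κ ^ 2 / 32 ≤ K := by nlinarith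
  calc κ ^ 2 / (32 * K) * (Real.log 2 * K + κ ^ 2 / 32) ≤ κ ^ 2 / (32 * K) * K := by
        apply mul_le_mul_of_nonneg_left h1
        positivity
    _ = κ ^ 2 / 32 := by
        field_simp

/-- the recursion -/
lemma recursion {δ : ℝ} (h0 : 0 < δ) (h1 : δ < 1 / 2) {d : ℕ} (hd1 : 1 ≤ d)
    (hd : ∀ k : ℕ, k < d → (k : ℝ) ≤ δ * n) {K : ℕ} (hK : 1 ≤ K) {κ lam M : ℝ}
    (hκ : κ = ((1 - 2 * δ) / 2) ^ K) (hlam : lam = κ ^ 2 / (32 * K)) (hM : 0 ≤ M) (j : ℕ)
    (hj : j ≤ K) (C : Finset (Fin n → Bool)) (T : Finset (Fin n)) (b : Fin n → Bool)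
    (hne : C.Nonempty) (hC : IsCode d C) (hb : ∀ x ∈ C, ∀ i ∉ T, x i = b i) :
    (∃ T' ⊆ T, ∃ b' : Fin n → Bool, (∀ i ∉ T, b' i = b i) ∧
      (T.card : ℝ) - T'.card ≤ K * M * (2 - 2 * (1 / 2) ^ j) ∧
      ∀ x : Fin n → Bool, (∀ i ∉ T', x i = b' i) → x ∈ LC j C) ∨
    (1 ≤ j ∧ 1 / 2 * Real.exp (κ ^ 2 * (M * lam ^ (j - 1)) / 32) *
      min (C.card : ℝ) ((2 : ℝ) ^ ((1 - H δ) * n)) ≤ A n d) := by
  classical
  have hq0 : 0 < (1 - 2 * δ) / 2 := by linarith
  have hq1 : (1 - 2 * δ) / 2 ≤ 1 / 2 := by linarith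
  have hκ0 : 0 < κ := by rw [hκ]; positivity
  have hκ1 : κ ≤ 1 := by rw [hκ]; exact pow_le_one₀ hq0.le (by linarith)
  have hKR : (1 : ℝ) ≤ K := by exact_mod_cast hK
  have hlam0 : 0 < lam := by rw [hlam]; positivity
  have hκ2 : κ ^ 2 ≤ 1 := by nlinarith
  have hlam1 : lam ≤ 1 / 2 := by
    rw [hlam, div_le_iff₀ (by positivity)]
    nlinarith
  have hmin0 : ∀ C : Finset (Fin n → Bool), 0 ≤ min (C.card : ℝ) ((2 : ℝ) ^ ((1 - H δ) * n)) :=
    fun C => le_min (Nat.cast_nonneg _) (by positivity)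
  induction j generalizing C T b with
  | zero =>
    left
    refine ⟨T, Finset.Subset.refl T, b, fun _ _ => rfl, by simp, ?_⟩
    intro x _ S hS
    obtain ⟨y, hy⟩ := hne
    refine ⟨y, hy, ?_⟩
    intro i hi
    have : S = ∅ := Finset.card_eq_zero.1 (by omega)
    rw [this] at hi
    simp at hi
  | succ j ih =>
    obtain ⟨F, hF, hFp, hFmax⟩ := exists_max_family C T (j + 1)
    have hMj : 0 ≤ M * lam ^ j := by positivity
    by_cases hcase : M * lam ^ j ≤ F.card
    · right
      refine ⟨by omega, ?_⟩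
      obtain ⟨a, ha⟩ := assemble C F hF fun S hS => (hFp S hS).2.2.1
      have hmis := missing h0 h1.le hd1 hd C hC F hF (K := K)
        (fun S hS => (hFp S hS).2.1.trans hj) a ha
      refine le_trans ?_ hmis
      apply mul_le_mul_of_nonneg_right _ (hmin0 C)
      apply mul_le_mul_of_nonneg_left _ (by norm_num)
      apply Real.exp_le_exp.2
      rw [← hκ]
      simp only [Nat.add_sub_cancel]
      have : κ ^ 2 * (M * lam ^ j) ≤ κ ^ 2 * F.card :=
        mul_le_mul_of_nonneg_left hcase (sq_nonneg κ)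
      have h5 : 0 ≤ κ ^ 2 * (F.card : ℝ) := by positivity
      linarith
    · rw [not_le] at hcase
      set U : Finset (Fin n) := F.biUnion id with hU
      have hUT : U ⊆ T := by
        intro i hi
        rw [hU, Finset.mem_biUnion] at hi
        obtain ⟨S, hS, hiS⟩ := hi
        exact (hFp S hS).1 hiS
      have hUcard : (U.card : ℝ) ≤ K * (M * lam ^ j) := by
        have h2 : U.card ≤ F.card * K := by
          rw [hU]
          exact Finset.card_biUnion_le_card_mul F id K fun S hS => (hFp S hS).2.1.trans hj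
        have h3 : (U.card : ℝ) ≤ F.card * K := by exact_mod_cast h2
        nlinarith
      obtain ⟨C', hC'C, hcard, hpop⟩ := popular C U
      have hC'ne : C'.Nonempty := by
        rw [← Finset.card_pos]
        rw [← Finset.card_pos] at hne
        by_contra hcon
        have h4 : C'.card = 0 := by omega
        rw [h4] at hcard
        have : (0 : ℝ) < C.card := by exact_mod_cast hne
        simp at hcard
        rw [Finset.card_pos] at hne
        exact hne.ne_empty hcard
      obtain ⟨x0, hx0⟩ := hC'ne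
      have hcode' : IsCode d C' := fun x hx y hy hxy => hC x (hC'C hx) y (hC'C hy) hxy
      have hb' : ∀ x ∈ C', ∀ i ∉ T \ U, x i = x0 i := by
        intro x hx i hi
        rw [Finset.mem_sdiff, not_and, not_not] at hi
        by_cases hiT : i ∈ T
        · exact hpop x hx x0 hx0 i (hi hiT)
        · rw [hb x (hC'C hx) i hiT, hb x0 (hC'C hx0) i hiT]
      have hTU : ((T \ U).card : ℝ) = T.card - U.card := by
        rw [Finset.card_sdiff_of_subset hUT, Nat.cast_sub (Finset.card_le_card hUT)]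
      have hUlog : (2 : ℝ) ^ U.card ≤ Real.exp (Real.log 2 * (K * (M * lam ^ j))) := by
        rw [← Real.rpow_natCast, two_rpow]
        apply Real.exp_le_exp.2
        exact mul_le_mul_of_nonneg_left hUcard (Real.log_pos (by norm_num)).le
      rcases ih (by omega) C' (T \ U) x0 ⟨x0, hx0⟩ hcode' hb' with hleft | hright
      · left
        obtain ⟨T', hT', b', hb'x, hT'card, hcl⟩ := hleft
        refine ⟨T', hT'.trans Finset.sdiff_subset, b', ?_, ?_, ?_⟩
        · intro i hi
          rw [hb'x i (fun h => hi (Finset.mem_sdiff.1 h).1), hb x0 (hC'C hx0) i hi]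
        · have hpow : lam ^ j ≤ (1 / 2) ^ j := pow_le_pow_left₀ hlam0.le hlam1 j
          have h6 : K * (M * lam ^ j) ≤ K * M * (1 / 2) ^ j := by
            have : K * (M * lam ^ j) = (K * M) * lam ^ j := by ring
            rw [this]
            exact mul_le_mul_of_nonneg_left hpow (by positivity)
          rw [hTU] at hT'card
          have h7 : (K : ℝ) * M * (2 - 2 * (1 / 2) ^ (j + 1)) =
              K * M * (1 / 2) ^ j + K * M * (2 - 2 * (1 / 2) ^ j) := by
            rw [pow_succ]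
            ring
          rw [h7]
          linarith
        · intro x hx S hS
          by_cases hSU : Disjoint S U
          · -- `S ∩ T` is not an obstruction
            by_contra hno
            push Not at hno
            have hobs : Obs C (S ∩ T) := by
              refine ⟨x, fun y hy => ?_⟩
              obtain ⟨i, hi, hne'⟩ := hno y hy
              refine ⟨i, ?_, hne'⟩
              rw [Finset.mem_inter]
              refine ⟨hi, ?_⟩
              by_contra hiT
              apply hne'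
              have hiT' : i ∉ T' := fun h => hiT (Finset.mem_sdiff.1 (hT' h)).1
              have hiTU : i ∉ T \ U := fun h => hiT (Finset.mem_sdiff.1 h).1
              rw [hx i hiT', hb'x i hiTU, hb x0 (hC'C hx0) i hiT, hb y hy i hiT]
            have hnonempty : (S ∩ T).Nonempty := by
              obtain ⟨a, ha⟩ := hobs
              obtain ⟨i, hi, -⟩ := ha x0 (hC'C hx0)
              exact ⟨i, hi⟩
            obtain ⟨S', hS', hnd⟩ := hFmax (S ∩ T) Finset.inter_subset_right
              ((Finset.card_le_card Finset.inter_subset_left).trans hS) hobs hnonempty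
            apply hnd
            rw [Finset.disjoint_left]
            intro i hi hi2
            exact Finset.disjoint_left.1 hSU (Finset.mem_inter.1 hi2).1
              (by rw [hU, Finset.mem_biUnion]; exact ⟨S', hS', hi⟩)
          · have hlt : (S \ U).card ≤ j := by
              have h8 : (S \ U).card < S.card := by
                apply Finset.card_lt_card
                rw [Finset.ssubset_iff_subset_ne]
                refine ⟨Finset.sdiff_subset, ?_⟩
                intro h9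
                apply hSU
                rw [← h9]
                exact Finset.sdiff_disjoint
              omega
            obtain ⟨y, hy, hyx⟩ := hcl x hx (S \ U) hlt
            refine ⟨y, hC'C hy, ?_⟩
            intro i hi
            by_cases hiU : i ∈ U
            · have hiTU : i ∉ T \ U := fun h => (Finset.mem_sdiff.1 h).2 hiU
              have hiT' : i ∉ T' := fun h => hiTU (hT' h)
              rw [hx i hiT', hb'x i hiTU, hpop y hy x0 hx0 i hiU]
            · exact hyx i (Finset.mem_sdiff.2 ⟨hi, hiU⟩)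
      · right
        obtain ⟨hj1, hA⟩ := hright
        refine ⟨by omega, le_trans ?_ hA⟩
        simp only [Nat.add_sub_cancel]
        obtain ⟨i, rfl⟩ : ∃ i, j = i + 1 := ⟨j - 1, by omega⟩
        simp only [Nat.add_sub_cancel]
        set G : ℝ := (2 : ℝ) ^ ((1 - H δ) * n) with hG
        have hG0 : 0 < G := by positivity
        have hmin : min (C.card : ℝ) G ≤ 2 ^ U.card * min (C'.card : ℝ) G := by
          have h1U : (1 : ℝ) ≤ 2 ^ U.card := one_le_pow₀ (by norm_num)
          rw [mul_min_of_nonneg _ _ (by positivity)]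
          refine le_min ((min_le_left _ _).trans hcard) ((min_le_right _ _).trans ?_)
          nlinarith
        have hexp : Real.exp (κ ^ 2 * (M * lam ^ (i + 1)) / 32) * 2 ^ U.card ≤
            Real.exp (κ ^ 2 * (M * lam ^ i) / 32) := by
          refine (mul_le_mul_of_nonneg_left hUlog (Real.exp_pos _).le).trans ?_
          rw [← Real.exp_add]
          apply Real.exp_le_exp.2
          have hs := step_const hK hκ0 hκ1
          rw [← hlam] at hs
          have h10 : 0 ≤ M * lam ^ i := by positivity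
          have h11 := mul_le_mul_of_nonneg_left hs h10
          have e11 : lam ^ (i + 1) = lam ^ i * lam := pow_succ _ _
          rw [e11]
          linarith
        calc 1 / 2 * Real.exp (κ ^ 2 * (M * lam ^ (i + 1)) / 32) * min (C.card : ℝ) G
            ≤ 1 / 2 * Real.exp (κ ^ 2 * (M * lam ^ (i + 1)) / 32) *
              (2 ^ U.card * min (C'.card : ℝ) G) :=
              mul_le_mul_of_nonneg_left hmin (by positivity)
          _ = 1 / 2 * (Real.exp (κ ^ 2 * (M * lam ^ (i + 1)) / 32) * 2 ^ U.card) *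
              min (C'.card : ℝ) G := by ring
          _ ≤ 1 / 2 * Real.exp (κ ^ 2 * (M * lam ^ i) / 32) * min (C'.card : ℝ) G := by
              apply mul_le_mul_of_nonneg_right _ (hmin0 C')
              exact mul_le_mul_of_nonneg_left hexp (by norm_num)

/-- **Codes with local structure.** -/
theorem local_structure {δ : ℝ} (h0 : 0 < δ) (h1 : δ < 1 / 2) {d : ℕ} (hd1 : 1 ≤ d)
    (hd : ∀ k : ℕ, k < d → (k : ℝ) ≤ δ * n) {K : ℕ} (hK : 1 ≤ K) {ε : ℝ} (hε : 0 < ε)
    (C : Finset (Fin n → Bool)) (hne : C.Nonempty) (hC : IsCode d C)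
    (hloc : ∀ (T : Finset (Fin n)) (b : Fin n → Bool), (1 - ε) * n ≤ T.card →
      ∃ x : Fin n → Bool, (∀ i ∉ T, x i = b i) ∧ x ∉ LC K C) :
    1 / 2 * Real.exp (ε / 2 * ((((1 - 2 * δ) / 2) ^ K) ^ 2 / (32 * K)) ^ K * n) *
      min (C.card : ℝ) ((2 : ℝ) ^ ((1 - H δ) * n)) ≤ A n d := by
  have hKR : (1 : ℝ) ≤ K := by exact_mod_cast hK
  have hn0 : (0 : ℝ) ≤ n := Nat.cast_nonneg n
  rcases recursion h0 h1 hd1 hd hK (κ := ((1 - 2 * δ) / 2) ^ K)
    (lam := (((1 - 2 * δ) / 2) ^ K) ^ 2 / (32 * K)) (M := ε * n / (2 * K)) rfl rfl (by positivity)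
    K le_rfl C univ (fun _ => false) hne hC (fun x _ i hi => absurd (Finset.mem_univ i) hi) with
    ⟨T', -, b', -, hT', hcl⟩ | ⟨-, hA⟩
  · exfalso
    have hK2 : (K : ℝ) * (ε * n / (2 * K)) = ε * n / 2 := by field_simp
    rw [hK2] at hT'
    have hpow : (0 : ℝ) ≤ (1 / 2) ^ K := by positivity
    rw [Finset.card_univ, Fintype.card_fin] at hT'
    have h3 : (1 - ε) * n ≤ T'.card := by nlinarith [mul_nonneg (mul_nonneg hε.le hn0) hpow]
    obtain ⟨x, hx, hnot⟩ := hloc T' b' h3
    exact hnot (hcl x hx)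
  · refine le_trans (le_of_eq ?_) hA
    congr 2
    obtain ⟨k, rfl⟩ : ∃ k, K = k + 1 := ⟨K - 1, by omega⟩
    simp only [Nat.add_sub_cancel]
    set q := (((1 - 2 * δ) / 2) ^ (k + 1)) ^ 2 with hq
    congr 1
    rw [pow_succ (q / (32 * ((k + 1 : ℕ) : ℝ)))]
    field_simp

end Run7.h748.Codes
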